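import Pool.Agent.H70.AL.Stm
import Pool.Agent.H70.GR.Conv

/-! Assembly: degrees of the j-sets of nearly extremal k-graphs. -/

set_option autoImplicit false
set_option linter.unusedSectionVars false
open Finset Filter Topology

namespace Pool.Agent.H70.AL.FIN

open Pool.Agent.H70.RC Pool.Agent.H70.QR Pool.Agent.H70.GR Pool.Agent.H70.AL Pool.Agent.H70.GR.FIN

/-- a sample size that works for all classes -/
theorem sample (k : ℕ) {η : ℝ} (hη : 0 < η) : ∃ n : ℕ, k + 1 ≤ n ∧ ∀ a e : ℝ, 0 ≤ a → a ≤ 1 →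
    (k.factorial : ℝ) * e ≤ a * (n : ℝ) ^ k → e ≤ (a + η) * (n.choose k : ℝ) := by
  set τ : ℝ := min η 1 with hτ
  have hτ0 : 0 < τ := lt_min hη one_pos
  have hτ1 : τ ≤ 1 := min_le_right _ _
  have hτη : τ ≤ η := min_le_left _ _
  refine ⟨max (k + 1) ⌈2 * (k : ℝ) ^ 2 / τ⌉₊, le_max_left _ _, ?_⟩
  intro a e ha0 ha1 he
  set n := max (k + 1) ⌈2 * (k : ℝ) ^ 2 / τ⌉₊ with hn
  have hn1 : k + 1 ≤ n := le_max_left _ _
  have hn2 : 2 * (k : ℝ) ^ 2 / τ ≤ n := by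
    have h1 : ⌈2 * (k : ℝ) ^ 2 / τ⌉₊ ≤ n := le_max_right _ _
    exact (Nat.le_ceil _).trans (by exact_mod_cast h1)
  have hn0 : (0 : ℝ) < n := by exact_mod_cast (by omega : 0 < n)
  have h3 : (k : ℝ) ^ 2 / n ≤ τ / 2 := by
    rw [div_le_iff₀ hn0]
    rw [div_le_iff₀ hτ0] at hn2
    linarith
  have h4 := Pool.Agent.H70.GR.Conv.ratio_ge (N := n) (k := k) (by omega) (by omega)
  rw [le_div_iff₀ (by positivity)] at h4
  have hkf : (0 : ℝ) < (k.factorial : ℝ) := by exact_mod_cast Nat.factorial_pos k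
  have h5 : (1 - τ / 2) * (n : ℝ) ^ k ≤ (n.descFactorial k : ℝ) :=
    le_trans (mul_le_mul_of_nonneg_right (by linarith) (by positivity)) h4
  rw [descFactorial_eq] at h5
  have hnk : (0 : ℝ) < (n : ℝ) ^ k := by positivity
  have h6 : a * (n : ℝ) ^ k ≤ (a + η) * ((k.factorial : ℝ) * (n.choose k : ℝ)) := by
    have h7 : (a + η) * ((1 - τ / 2) * (n : ℝ) ^ k) ≤ (a + η) * ((k.factorial : ℝ) * (n.choose k : ℝ)) :=
      mul_le_mul_of_nonneg_left h5 (by linarith)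
    refine le_trans ?_ h7
    have h8 : a ≤ (a + η) * (1 - τ / 2) := by nlinarith
    calc a * (n : ℝ) ^ k ≤ ((a + η) * (1 - τ / 2)) * (n : ℝ) ^ k := mul_le_mul_of_nonneg_right h8 hnk.le
      _ = _ := by ring
  have h9 : (k.factorial : ℝ) * e ≤ (k.factorial : ℝ) * ((a + η) * (n.choose k : ℝ)) := by
    calc _ ≤ _ := he.trans h6
      _ = _ := by ring
  exact le_of_mul_le_mul_left h9 hkf

/-- weighted densities -/
theorem weightedJ (hTEL : S_TELJ) (hKER : S_KERJ) (hKK : S_KERK) (hUP : S_UPK) {k : ℕ} (hk : 1 ≤ k) (l : ℕ)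
    {η : ℝ} (hη : 0 < η) :
    ∃ δ : ℝ, 0 < δ ∧ ∀ P : (∀ n : ℕ, Finset (Finset (Fin n)) → Prop), ClsK k P → ∀ a : ℝ, 0 ≤ a → a ≤ 1 →
      Tendsto (fun n : ℕ => (exP P n : ℝ) / (n.choose k : ℝ)) atTop (𝓝 a) →
      ∀ N : ℕ, 1 ≤ N → ∀ H : Finset (Finset (Fin N)), P N H →
      ∀ φ : (Fin (l + 1) → Fin N) → ℝ, (∀ x, |φ x| ≤ 1) → CutF φ δ →
      ∀ s : ℝ, 0 ≤ s → s ≤ 1 → TWJ (TK k H) φ s ≤ a + η := by
  obtain ⟨n, hn, hs⟩ := sample k (half_pos hη)
  set C : ℝ := (n : ℝ) ^ (l + 1) * 2 ^ (n ^ (l + 1)) with hC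
  have hC0 : 0 < C := by
    have : (0 : ℝ) < n := by exact_mod_cast (by omega : 0 < n)
    positivity
  refine ⟨η / (2 * C * (2 + η)), by positivity, ?_⟩
  intro P hP a ha0 ha1 hlim N hN H hH φ hφ hcut s hs0 hs1
  haveI : Nonempty (Fin N) := ⟨⟨0, by omega⟩⟩
  set δ := η / (2 * C * (2 + η)) with hδ
  have hδ0 : 0 < δ := by positivity
  have hker : KerK (TK k H) := hKK.1 k N H (hP.uni N H hH)
  have h2 := hTEL (Fin N) k l (TK k H) hker n (exP P n) (Nat.cast_nonneg _) (hKER.1 k P hP N H hH n) φ hφ δ hδ0.le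
    hcut s hs0 hs1
  have h3 : (exP P n : ℝ) ≤ (a + η / 2) * (n.choose k : ℝ) := hs a _ ha0 ha1 (hUP k hk P hP a hlim n)
  rw [← hC] at h2
  have hch : (0 : ℝ) < (n.choose k : ℝ) := by exact_mod_cast Nat.choose_pos (by omega)
  have hCδ : 0 ≤ C * δ := by positivity
  have h4 : (exP P n : ℝ) * (1 + C * δ) ≤ (a + η / 2) * (n.choose k : ℝ) * (1 + C * δ) :=
    mul_le_mul_of_nonneg_right h3 (by linarith)
  have h5 : (n.choose k : ℝ) * (TWJ (TK k H) φ s - C * δ) ≤ (n.choose k : ℝ) * ((a + η / 2) * (1 + C * δ)) := by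
    calc _ ≤ _ := h2.trans h4
      _ = _ := by ring
  have h6 : TWJ (TK k H) φ s - C * δ ≤ (a + η / 2) * (1 + C * δ) := le_of_mul_le_mul_left h5 hch
  have h7 : C * δ * (2 + η) = η / 2 := by
    rw [hδ]
    field_simp
  nlinarith

theorem dJ_nonneg {V : Type} [Fintype V] {l m : ℕ} {χ : (Fin (l + 1 + m) → V) → ℝ} (h : KerK χ) (x : Fin (l + 1) → V) :
    0 ≤ dJ χ x := av_nonneg fun _ => h.nonneg _

theorem dJ_le_one {V : Type} [Fintype V] [Nonempty V] {l m : ℕ} {χ : (Fin (l + 1 + m) → V) → ℝ} (h : KerK χ)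
    (x : Fin (l + 1) → V) : dJ χ x ≤ 1 := av_le_of_le fun _ => h.le_one _

theorem cutF_neg {V : Type} [Fintype V] {l : ℕ} {φ : (Fin (l + 1) → V) → ℝ} {δ : ℝ} (h : CutF φ δ) :
    CutF (fun x => - φ x) δ := by
  intro g h0 h1
  have := h g h0 h1
  rw [show (fun x => - φ x * ∏ i, g i (rm i x)) = fun x => - (φ x * ∏ i, g i (rm i x)) from by
    funext x; ring, av_neg, abs_neg]
  exact this

/-- bounded complexity of the degrees, averaged form -/
theorem colour (hCUT : S_CUT) (hTEL : S_TELJ) (hEXP : S_EXPJ) (hWR : S_WRJ) (hKER : S_KERJ) (hKK : S_KERK)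
    (hUP : S_UPK) (l m : ℕ) {η : ℝ} (hη : 0 < η) :
    ∃ δ : ℝ, 0 < δ ∧ ∃ M : ℕ, ∀ P : (∀ n : ℕ, Finset (Finset (Fin n)) → Prop), ClsK (l + 1 + m) P → ∀ a : ℝ, 0 ≤ a →
      a ≤ 1 → Tendsto (fun n : ℕ => (exP P n : ℝ) / (n.choose (l + 1 + m) : ℝ)) atTop (𝓝 a) →
      ∀ N : ℕ, 1 ≤ N → ∀ H : Finset (Finset (Fin N)), P N H → a - δ ≤ av (TK (l + 1 + m) H) →
      ∃ (c : (Fin l → Fin N) → Fin M) (d : (Fin (l + 1) → Fin M) → ℝ),
        (av fun x => (dJ (TK (l + 1 + m) H) x - d (fun i => c (rm i x))) ^ 2) ≤ η := by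
  set B : ℝ := 2 + 2 ^ ((l + 1 + m) ^ (l + 1)) with hB
  have hB0 : 0 < B := by positivity
  set η₁ : ℝ := min η 1 with hη₁
  have hη₁0 : 0 < η₁ := lt_min hη one_pos
  have hη₁1 : η₁ ≤ 1 := min_le_right _ _
  have hη₁η : η₁ ≤ η := min_le_left _ _
  have hB1 : 1 ≤ B := by
    have : (0 : ℝ) < 2 ^ ((l + 1 + m) ^ (l + 1)) := by positivity
    linarith
  set η₀ : ℝ := (η₁ / B) ^ 2 with hη₀
  have hη₀0 : 0 < η₀ := by positivity
  have hη₀1 : η₀ ≤ 1 := by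
    rw [hη₀]
    have h1 : η₁ / B ≤ 1 := by
      rw [div_le_one hB0]
      linarith
    have h0 : 0 ≤ η₁ / B := by positivity
    nlinarith
  have hsq : B * √η₀ = η₁ := by
    rw [hη₀, Real.sqrt_sq (by positivity)]
    field_simp
  obtain ⟨δ₁, hδ₁, hW⟩ := weightedJ hTEL hKER hKK hUP (k := l + 1 + m) (by omega) l hη₀0
  obtain ⟨M, hM⟩ := hWR l δ₁ hδ₁
  refine ⟨η₀, hη₀0, M, ?_⟩
  intro P hP a ha0 ha1 hlim N hN H hH hd
  haveI : Nonempty (Fin N) := ⟨⟨0, by omega⟩⟩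
  set χ := TK (l + 1 + m) H with hχdef
  have hker : KerK χ := hKK.1 (l + 1 + m) N H (hP.uni N H hH)
  obtain ⟨c, d, hd0, hd1, hcut, horth⟩ := hM (Fin N) (dJ χ) (dJ_nonneg hker) (dJ_le_one hker)
  refine ⟨c, d, ?_⟩
  set φ : (Fin (l + 1) → Fin N) → ℝ := fun x => dJ χ x - d (fun i => c (rm i x)) with hφdef
  have hφ1 : ∀ x, |φ x| ≤ 1 := by
    intro x
    rw [hφdef, abs_le]
    simp only
    constructor <;> linarith [dJ_nonneg hker x, dJ_le_one hker x, hd0 (fun i => c (rm i x)), hd1 (fun i => c (rm i x))]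
  have hcutF : CutF φ δ₁ := hCUT (Fin N) l φ δ₁ hcut
  have hLL := hEXP (Fin N) l m χ hker a η₀ hη₀0 hη₀1 hd φ hφ1 (fun s hs0 hs1 =>
    ⟨hW P hP a ha0 ha1 hlim N hN H hH φ hφ1 hcutF s hs0 hs1,
      hW P hP a ha0 ha1 hlim N hN H hH (fun x => - φ x) (fun x => by rw [abs_neg]; exact hφ1 x) (cutF_neg hcutF)
        s hs0 hs1⟩)
  rw [← hB, hsq] at hLL
  have h1 : (av fun x => (φ x) ^ 2) = av fun x => φ x * dJ χ x := by
    have h2 := horth d
    have h3 : (av fun x => φ x * dJ χ x) = (av fun x => (φ x) ^ 2) +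
        av fun x => (dJ χ x - d (fun i => c (rm i x))) * d (fun i => c (rm i x)) := by
      rw [← av_add]
      refine av_congr fun x => ?_
      rw [hφdef]
      ring
    rw [h3, h2, add_zero]
  rw [h1]
  exact ((abs_le.1 hLL).2).trans hη₁η

/-! ### Sums -/

/-- quasirandom functions of `(l + 1)`-sets -/
def Quasi {N : ℕ} (l : ℕ) (δ : ℝ) (φ : Finset (Fin N) → ℝ) : Prop :=
  ∀ A : Fin (l + 1) → Set (Fin l → Fin N), ∀ [DecidablePred fun x : Fin (l + 1) → Fin N =>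
      Function.Injective x ∧ ∀ i, (fun a => x (i.succAbove a)) ∈ A i],
    |∑ x ∈ univ.filter (fun x : Fin (l + 1) → Fin N =>
      Function.Injective x ∧ ∀ i, (fun a => x (i.succAbove a)) ∈ A i), φ (univ.image x)| ≤ δ * (N : ℝ) ^ (l + 1)

theorem cutS_of_quasi {N l : ℕ} (hN : 1 ≤ N) {δ : ℝ} {φ : Finset (Fin N) → ℝ} (h : Quasi l δ φ) :
    CutS (tup (l := l) φ) δ := by
  classical
  intro A
  have h1 := h (fun i => (A i : Set (Fin l → Fin N)))
  have hN0 : (0 : ℝ) < N := by exact_mod_cast hN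
  unfold av
  rw [Fintype.card_fun, Fintype.card_fin, Fintype.card_fin, abs_div]
  push_cast
  rw [abs_of_pos (by positivity : (0 : ℝ) < (N : ℝ) ^ (l + 1)), div_le_iff₀ (by positivity)]
  refine le_trans (le_of_eq ?_) h1
  congr 1
  rw [sum_filter]
  refine sum_congr rfl fun x _ => ?_
  unfold tup rm
  by_cases hx : Function.Injective x
  · by_cases hA : ∀ i, (fun a => x (i.succAbove a)) ∈ A i
    · rw [if_pos hA, if_pos hx, if_pos ⟨hx, by simpa using hA⟩]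
    · rw [if_neg hA, if_neg]
      rintro ⟨-, h3⟩
      exact hA (by simpa using h3)
  · rw [if_neg (fun h : _ ∧ _ => hx h.1)]
    split_ifs <;> rfl

theorem tup_abs {N l : ℕ} {φ : Finset (Fin N) → ℝ} (h : ∀ S, |φ S| ≤ 1) (x : Fin (l + 1) → Fin N) :
    |tup φ x| ≤ 1 := by
  unfold tup
  split_ifs
  · exact h _
  · simp

/-- a function of increasing tuples is a function of sets -/
theorem set_colour {N l M : ℕ} (hN : 1 ≤ N) (c : (Fin l → Fin N) → Fin M) :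
    ∃ c' : Finset (Fin N) → Fin M, ∀ z : Fin l → Fin N, StrictMono z → c' (univ.image z) = c z := by
  classical
  refine ⟨fun S => if h : S.card = l then c (fun a => S.orderEmbOfFin h a) else c (fun _ => ⟨0, by omega⟩), ?_⟩
  intro z hz
  have hc : (univ.image z).card = l := by
    rw [card_image_of_injective _ hz.injective, card_univ, Fintype.card_fin]
  simp only [hc, dif_pos]
  congr 1
  have := Finset.orderEmbOfFin_unique hc (f := z) (fun x => mem_image_of_mem _ (mem_univ _)) hz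
  exact this.symm

/-- **Main theorem, uniform in the class.** -/
theorem main (hCUT : S_CUT) (hTEL : S_TELJ) (hEXP : S_EXPJ) (hWR : S_WRJ) (hKER : S_KERJ) (hKK : S_KERK)
    (hLIM : S_LIMK) (hUP : S_UPK) (l m : ℕ) {η : ℝ} (hη : 0 < η) :
    ∃ δ : ℝ, 0 < δ ∧ ∃ N₀ M : ℕ, ∀ P : (∀ n : ℕ, Finset (Finset (Fin n)) → Prop), ClsK (l + 1 + m) P →
      ∀ N ≥ N₀, ∀ H : Finset (Finset (Fin N)), P N H → (exP P N : ℝ) ≤ H.card + δ * (N : ℝ) ^ (l + 1 + m) →
      (∀ φ : Finset (Fin N) → ℝ, (∀ S, |φ S| ≤ 1) → Quasi l δ φ →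
        ∑ e ∈ H, ∏ S ∈ e.powersetCard (l + 1), (1 + φ S) ≤ H.card + η * (N : ℝ) ^ (l + 1 + m)) ∧
      ∃ (c : Finset (Fin N) → Fin M) (d : (Fin (l + 1) → Fin M) → ℝ),
        ∑ x ∈ SM (l + 1) N, ((m.factorial : ℝ) * degS H (univ.image x) / (N : ℝ) ^ m -
          d (fun i => c (univ.image fun a => x (i.succAbove a)))) ^ 2 ≤ η * (N : ℝ) ^ (l + 1) := by
  set k := l + 1 + m with hk
  have hkf : (0 : ℝ) < (k.factorial : ℝ) := by exact_mod_cast Nat.factorial_pos _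
  have hkf1 : (1 : ℝ) ≤ (k.factorial : ℝ) := by exact_mod_cast Nat.factorial_pos _
  obtain ⟨δ₁, hδ₁, hW⟩ := weightedJ hTEL hKER hKK hUP (k := k) (by omega) l (half_pos hη)
  obtain ⟨δ₂, hδ₂, M, hcol⟩ := colour hCUT hTEL hEXP hWR hKER hKK hUP l m hη
  set δ₃ : ℝ := min δ₂ (η / 2) with hδ₃
  have hδ₃0 : 0 < δ₃ := by positivity
  refine ⟨min δ₁ (δ₃ / (2 * (k.factorial : ℝ))), by positivity, max k (⌈2 * (k : ℝ) ^ 2 / δ₃⌉₊ + 1), M, ?_⟩
  intro P hP N hN H hH hext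
  obtain ⟨a, ha0, ha1, hlim, hge⟩ := hLIM k (by omega) P hP
  have hN1 : k ≤ N := le_trans (le_max_left _ _) hN
  have hN1' : 1 ≤ N := by omega
  have hN2 : 2 * (k : ℝ) ^ 2 / δ₃ ≤ N := by
    have h1 : ⌈2 * (k : ℝ) ^ 2 / δ₃⌉₊ + 1 ≤ N := le_trans (le_max_right _ _) hN
    exact (Nat.le_ceil _).trans (by exact_mod_cast (by omega : ⌈2 * (k : ℝ) ^ 2 / δ₃⌉₊ ≤ N))
  have hN0 : (0 : ℝ) < N := by exact_mod_cast (by omega : 0 < N)
  haveI : Nonempty (Fin N) := ⟨⟨0, by omega⟩⟩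
  have huni := hP.uni N H hH
  have hNk : (0 : ℝ) < (N : ℝ) ^ k := by positivity
  -- density
  have hcount : a * (N : ℝ) ^ k ≤ (k.factorial : ℝ) * H.card + δ₃ * (N : ℝ) ^ k := by
    have h1 := hge N hN1
    have hch : (0 : ℝ) < (N.choose k : ℝ) := by exact_mod_cast Nat.choose_pos hN1
    rw [le_div_iff₀ hch] at h1
    have h2 : a * (N.descFactorial k : ℝ) ≤ (k.factorial : ℝ) * exP P N := by
      rw [descFactorial_eq]
      have := mul_le_mul_of_nonneg_left h1 hkf.le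
      linarith
    have h3 := Pool.Agent.H70.GR.Conv.ratio_ge (N := N) (k := k) (by omega) hN1
    rw [le_div_iff₀ (by positivity)] at h3
    have h4 : (k : ℝ) ^ 2 / N ≤ δ₃ / 2 := by
      rw [div_le_iff₀ hN0]
      rw [div_le_iff₀ hδ₃0] at hN2
      linarith
    have h5 : (1 - δ₃ / 2) * (N : ℝ) ^ k ≤ (N.descFactorial k : ℝ) :=
      le_trans (mul_le_mul_of_nonneg_right (by linarith) (by positivity)) h3
    have h6 : a * ((1 - δ₃ / 2) * (N : ℝ) ^ k) ≤ (k.factorial : ℝ) * exP P N :=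
      le_trans (mul_le_mul_of_nonneg_left h5 ha0) h2
    have hext' : (exP P N : ℝ) ≤ H.card + δ₃ / (2 * (k.factorial : ℝ)) * (N : ℝ) ^ k :=
      hext.trans (by gcongr; exact min_le_right _ _)
    have h7 : (k.factorial : ℝ) * exP P N ≤ (k.factorial : ℝ) * H.card + δ₃ / 2 * (N : ℝ) ^ k := by
      have h8 := mul_le_mul_of_nonneg_left hext' hkf.le
      have h9 : (k.factorial : ℝ) * (H.card + δ₃ / (2 * (k.factorial : ℝ)) * (N : ℝ) ^ k)
          = (k.factorial : ℝ) * H.card + δ₃ / 2 * (N : ℝ) ^ k := by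
        field_simp
      rw [h9] at h8
      exact h8
    have h10 : a * (δ₃ / 2 * (N : ℝ) ^ k) ≤ 1 * (δ₃ / 2 * (N : ℝ) ^ k) :=
      mul_le_mul_of_nonneg_right ha1 (by positivity)
    nlinarith
  constructor
  · intro φ hφ hq
    have hq' : Quasi l δ₁ φ := by
      intro A _
      refine (hq A).trans ?_
      gcongr
      exact min_le_left _ _
    have h1 := hW P hP a ha0 ha1 hlim N hN1' H hH (tup φ) (tup_abs hφ)
      (hCUT (Fin N) l (tup φ) δ₁ (cutS_of_quasi hN1' hq')) 1 zero_le_one le_rfl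
    rw [hKER.2.2 k l N H huni φ, div_le_iff₀ hNk] at h1
    have h2 : δ₃ ≤ η / 2 := min_le_right _ _
    have h3 : (k.factorial : ℝ) * (∑ e ∈ H, ∏ S ∈ e.powersetCard (l + 1), (1 + φ S)) ≤
        (k.factorial : ℝ) * (H.card + η * (N : ℝ) ^ k) := by
      have h4 : δ₃ * (N : ℝ) ^ k ≤ η / 2 * (N : ℝ) ^ k := mul_le_mul_of_nonneg_right h2 hNk.le
      have h5 : 1 * (η * (N : ℝ) ^ k) ≤ (k.factorial : ℝ) * (η * (N : ℝ) ^ k) :=
        mul_le_mul_of_nonneg_right hkf1 (by positivity)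
      nlinarith
    exact le_of_mul_le_mul_left h3 hkf
  · have hdens : a - δ₂ ≤ av (TK k H) := by
      rw [Pool.Agent.H70.GR.Conv.dens_eq hKK huni, le_div_iff₀ hNk]
      have : δ₃ ≤ δ₂ := min_le_left _ _
      have h4 : δ₃ * (N : ℝ) ^ k ≤ δ₂ * (N : ℝ) ^ k := mul_le_mul_of_nonneg_right this hNk.le
      linarith
    obtain ⟨c, d, hcd⟩ := hcol P hP a ha0 ha1 hlim N hN1' H hH hdens
    obtain ⟨c', hc'⟩ := set_colour hN1' c
    refine ⟨c', d, ?_⟩
    unfold av at hcd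
    rw [Fintype.card_fun, Fintype.card_fin, Fintype.card_fin] at hcd
    push_cast at hcd
    rw [div_le_iff₀ (by positivity)] at hcd
    refine le_trans ?_ hcd
    have h1 : ∀ x ∈ SM (l + 1) N, ((m.factorial : ℝ) * degS H (univ.image x) / (N : ℝ) ^ m -
          d (fun i => c' (univ.image fun a => x (i.succAbove a)))) ^ 2 =
        (dJ (TK (l + 1 + m) H) x - d (fun i => c (rm i x))) ^ 2 := by
      intro x hx
      have hx' : StrictMono x := by
        unfold SM at hx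
        simpa using hx
      rw [hKER.2.1 l m N H huni x hx'.injective]
      congr 3
      funext i
      exact hc' _ (hx'.comp (Fin.strictMono_succAbove i))
    rw [sum_congr rfl h1]
    exact sum_le_sum_of_subset_of_nonneg (subset_univ _) fun x _ _ => sq_nonneg _

end Pool.Agent.H70.AL.FIN
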