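import Pool.Agent.H70.GR.FIN
import Pool.Agent.H70.GR.Conv
import Pool.Agent.H70.AL.FIN

/-! The Gram form of the pair degrees, uniform in the class. -/

set_option autoImplicit false
set_option linter.unusedSectionVars false
open Finset Filter Topology

namespace Pool.Agent.H70.AL.GramU

open Pool.Agent.H70.RC Pool.Agent.H70.QR Pool.Agent.H70.GR Pool.Agent.H70.QR.WR Pool.Agent.H70.GR.FIN
open Pool.Agent.H70.GR.Conv Pool.Agent.H70.AL

/-- weighted densities, pairs, uniform in the class -/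
theorem weightedU (hTEL : S_TELK) (hKER : S_KERK) (hUP : S_UPK) {k : ℕ} (hk : 1 ≤ k) {η : ℝ} (hη : 0 < η) :
    ∃ δ : ℝ, 0 < δ ∧ ∀ P : (∀ n : ℕ, Finset (Finset (Fin n)) → Prop), ClsK k P → ∀ a : ℝ, 0 ≤ a → a ≤ 1 →
      Tendsto (fun n : ℕ => (exP P n : ℝ) / (n.choose k : ℝ)) atTop (𝓝 a) →
      ∀ N : ℕ, 1 ≤ N → ∀ H : Finset (Finset (Fin N)), P N H →
      ∀ φ : Fin N → Fin N → ℝ, (∀ x y, φ x y = φ y x) → (∀ x y, |φ x y| ≤ 1) → Cut φ δ →
      ∀ s : ℝ, 0 ≤ s → s ≤ 1 → TWK (TK k H) φ s ≤ a + η := by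
  obtain ⟨n, hn3, hs⟩ := Pool.Agent.H70.AL.FIN.sample k (half_pos hη)
  set C : ℝ := (n : ℝ) ^ 2 * 2 ^ (n ^ 2) with hC
  have hC0 : 0 < C := by
    have : (0 : ℝ) < n := by exact_mod_cast (by omega : 0 < n)
    positivity
  refine ⟨η / (2 * C * (2 + η)), by positivity, ?_⟩
  intro P hP a ha ha1 hlim N hN H hH φ hsym hφ hcut s hs0 hs1
  haveI : Nonempty (Fin N) := ⟨⟨0, by omega⟩⟩
  set δ := η / (2 * C * (2 + η)) with hδ
  have hδ0 : 0 < δ := by positivity
  have hker : KerK (TK k H) := hKER.1 k N H (hP.uni N H hH)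
  have h2 := hTEL (Fin N) k (TK k H) hker n ((k.factorial : ℝ) * exP P n) (by omega) (by positivity)
    (hKER.2.2.1 k P hP N H hH n) φ hsym hφ δ hδ0.le hcut s hs0 hs1
  have hch : (0 : ℝ) < (n.choose k : ℝ) := by exact_mod_cast Nat.choose_pos (by omega)
  have hkf : (0 : ℝ) < (k.factorial : ℝ) := by exact_mod_cast Nat.factorial_pos k
  have h3 : (exP P n : ℝ) ≤ (a + η / 2) * (n.choose k : ℝ) := hs a _ ha ha1 (hUP k hk P hP a hlim n)
  rw [descFactorial_eq] at h2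
  have hCδ : 0 ≤ C * δ := by positivity
  have h4 : (k.factorial : ℝ) * (exP P n : ℝ) * (1 + C * δ) ≤
      (k.factorial : ℝ) * (n.choose k : ℝ) * ((a + η / 2) * (1 + C * δ)) := by
    have h5 : (k.factorial : ℝ) * (exP P n : ℝ) ≤ (k.factorial : ℝ) * ((a + η / 2) * (n.choose k : ℝ)) :=
      mul_le_mul_of_nonneg_left h3 hkf.le
    have h6 := mul_le_mul_of_nonneg_right h5 (by linarith : (0 : ℝ) ≤ 1 + C * δ)
    calc _ ≤ _ := h6
      _ = _ := by ring
  have h5 : (k.factorial : ℝ) * (n.choose k : ℝ) * (TWK (TK k H) φ s - C * δ) ≤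
      (k.factorial : ℝ) * (n.choose k : ℝ) * ((a + η / 2) * (1 + C * δ)) := h2.trans h4
  have h6 : TWK (TK k H) φ s - C * δ ≤ (a + η / 2) * (1 + C * δ) :=
    le_of_mul_le_mul_left h5 (by positivity)
  have h7 : C * δ * (2 + η) = η / 2 := by
    rw [hδ]
    field_simp
  nlinarith

/-- **The averaged form.** -/
theorem gramU (hTEL : S_TELK) (hVW : S_VWK) (hEXP : S_EXPK) (hPSD : S_PSDK) (hLA : S_LAK) (hKER : S_KERK)
    (hUP : S_UPK) {m : ℕ} {η : ℝ} (hη : 0 < η) :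
    ∃ δ : ℝ, 0 < δ ∧ ∀ P : (∀ n : ℕ, Finset (Finset (Fin n)) → Prop), ClsK (m + 2) P → ∀ a : ℝ, 0 ≤ a → a ≤ 1 →
      Tendsto (fun n : ℕ => (exP P n : ℝ) / (n.choose (m + 2) : ℝ)) atTop (𝓝 a) →
      ∀ N : ℕ, 1 ≤ N → ∀ H : Finset (Finset (Fin N)), P N H → a - δ ≤ av (TK (m + 2) H) →
      ∀ D : ℕ, 1 ≤ D → ∃ u : Fin N → Fin D → ℝ,
        (av fun x => ∑ i, u x i ^ 2) ≤ a + η ∧
        (∑ i, (av fun x => u x i) ^ 2) ≤ η ∧
        (av fun x => av fun y => (a - cod2 (TK (m + 2) H) x y - ∑ i, u x i * u y i) ^ 2) ≤ a ^ 2 / (4 * D) + η := by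
  -- parameters
  set η' : ℝ := min η 1 with hη'
  have hη'0 : 0 < η' := lt_min hη one_pos
  have hη'1 : η' ≤ 1 := min_le_right _ _
  have hη'η : η' ≤ η := min_le_left _ _
  set τ : ℝ := η' / 8 with hτ
  have hτ0 : 0 < τ := by positivity
  set η₁ : ℝ := η' ^ 2 / 64 with hη₁
  have hη₁0 : 0 < η₁ := by positivity
  set B : ℝ := 2 + 2 ^ ((m + 2) ^ 2) with hB
  have hB0 : 0 < B := by positivity
  have hB1 : 1 ≤ B := by
    have : (0 : ℝ) < 2 ^ ((m + 2) ^ 2) := by positivity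
    linarith
  set η₀ : ℝ := (η₁ / B) ^ 2 with hη₀
  have hη₀0 : 0 < η₀ := by positivity
  have hη₁1 : η₁ ≤ 1 := by
    rw [hη₁]
    nlinarith
  have hη₀1 : η₀ ≤ 1 := by
    rw [hη₀]
    have : η₁ / B ≤ 1 := by
      rw [div_le_one hB0]
      linarith
    have h0 : 0 ≤ η₁ / B := by positivity
    nlinarith
  have hsq : B * √η₀ = η₁ := by
    rw [hη₀, Real.sqrt_sq (by positivity)]
    field_simp
  obtain ⟨δ₁, hδ₁, hW'⟩ := weightedU hTEL hKER hUP (k := m + 2) (by omega) hη₀0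
  obtain ⟨M, hM⟩ := wr' hδ₁
  obtain ⟨ξ, hξ, hL⟩ := hLA M (η' / 4) (by positivity)
  set t : ℝ := min 1 (ξ / 2 ^ (m + 7)) with ht
  have ht0 : 0 < t := lt_min one_pos (by positivity)
  have ht1 : t ≤ 1 := min_le_left _ _
  have ht2 : 2 ^ (m + 7) * t ≤ ξ := by
    have : t ≤ ξ / 2 ^ (m + 7) := min_le_right _ _
    rw [le_div_iff₀ (by positivity)] at this
    linarith
  refine ⟨min η₀ (min (t ^ 3) (η' / 2)), by positivity, ?_⟩
  intro P hP a ha ha1 hlim N hN H hH hd D hD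
  have hW := hW' P hP a ha ha1 hlim
  haveI : Nonempty (Fin N) := ⟨⟨0, by omega⟩⟩
  set χ := TK (m + 2) H with hχdef
  have hker : KerK χ := hKER.1 (m + 2) N H (hP.uni N H hH)
  have hd0 : a - η₀ ≤ av χ := by
    have := min_le_left η₀ (min (t ^ 3) (η' / 2))
    linarith
  have hd1 : a - t ^ 3 ≤ av χ := by
    have := (min_le_right η₀ (min (t ^ 3) (η' / 2))).trans (min_le_left _ _)
    linarith
  have hd2 : a - η' / 2 ≤ av χ := by
    have := (min_le_right η₀ (min (t ^ 3) (η' / 2))).trans (min_le_right _ _)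
    linarith
  obtain ⟨c, hcut⟩ := hM (Fin N) (cod2 χ) (cod2_nonneg hker) (cod2_le_one hker)
  set d := dc (cod2 χ) c with hddef
  have d0 : ∀ i j, 0 ≤ d i j := fun i j => dc_nonneg (cod2_nonneg hker) i j
  have d1 : ∀ i j, d i j ≤ 1 := fun i j => dc_le_one (cod2_le_one hker) i j
  have ds : ∀ i j, d i j = d j i := fun i j => dc_symm (cod2_symm hker) i j
  -- the partition
  set φ : Fin N → Fin N → ℝ := fun x y => cod2 χ x y - d (c x) (c y) with hφdef
  have hφs : ∀ x y, φ x y = φ y x := fun x y => by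
    rw [hφdef]
    simp only
    rw [cod2_symm hker, ds]
  have hφ1 : ∀ x y, |φ x y| ≤ 1 := by
    intro x y
    rw [hφdef, abs_le]
    simp only
    constructor <;> linarith [cod2_nonneg hker x y, cod2_le_one hker x y, d0 (c x) (c y), d1 (c x) (c y)]
  have hLL := hEXP (Fin N) m χ hker a η₀ hη₀0 hη₀1 hd0 φ hφs hφ1 (fun s hs0 hs1 => ⟨hW N hN H hH φ hφs hφ1 hcut s hs0 hs1,
    hW N hN H hH (fun x y => - φ x y) (fun x y => by show - φ x y = - φ y x; rw [hφs])
      (fun x y => by rw [abs_neg]; exact hφ1 x y) (cut_neg hcut) s hs0 hs1⟩)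
  rw [← hB, hsq] at hLL
  have hE1 : (av fun x => av fun y => (φ x y) ^ 2) ≤ η₁ := by
    have h1 : (av fun x => av fun y => (φ x y) ^ 2) = (av fun x => av fun y => φ x y * cod2 χ x y) := by
      have h2 := orth (cod2 χ) c d
      rw [av_av, av_av]
      congr 1
      have h3 : ∑ x, ∑ y, (φ x y) ^ 2 - ∑ x, ∑ y, φ x y * cod2 χ x y
          = - ∑ x, ∑ y, (cod2 χ x y - dc (cod2 χ) c (c x) (c y)) * d (c x) (c y) := by
        simp only [← sum_sub_distrib, ← sum_neg_distrib]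
        refine sum_congr rfl fun x _ => sum_congr rfl fun y _ => ?_
        rw [hφdef]
        simp only [← hddef]
        ring
      rw [h2] at h3
      linarith
    rw [h1]
    exact (abs_le.1 hLL).2
  -- positive semidefinite
  have hpsd := hPSD (Fin N) m χ hker a t ht0 ht1 hd1 (fun g hg hg0 s hs0 hs1 => by
    have := weightedV hVW hKER hP hlim hN hH hg hg0 hs0 hs1
    have : 0 ≤ t ^ 3 := by positivity
    linarith)
  have hpsd' : ∀ f : Fin N → ℝ, (∀ x, |f x| ≤ 1) → -ξ ≤ av fun u => av fun v => f u * f v * (a - cod2 χ u v) :=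
    fun f hf => le_trans (by linarith) (hpsd f hf)
  obtain ⟨u, hu1, hu2, hu3⟩ := hL (Fin N) a ha ha1 c d d0 d1 ds (psd_class hpsd') D hD
  have hdav : (av fun x => av fun y => (a - d (c x) (c y))) = a - av fun x => av fun y => cod2 χ x y := by
    have h2 := orth (cod2 χ) c (fun _ _ => 1)
    have h3 : (av fun x => av fun y => (a - d (c x) (c y))) = (av fun x => av fun y => (a - cod2 χ x y)) := by
      rw [av_av, av_av]
      congr 1
      have h4 : ∑ x, ∑ y, (a - d (c x) (c y)) - ∑ x, ∑ y, (a - cod2 χ x y)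
          = ∑ x, ∑ y, (cod2 χ x y - dc (cod2 χ) c (c x) (c y)) * 1 := by
        simp only [← sum_sub_distrib]
        exact sum_congr rfl fun x _ => sum_congr rfl fun y _ => by rw [← hddef]; ring
      rw [h2] at h4
      linarith
    rw [h3]
    simp only [av_sub, av_const]
  have hcodav : (av fun x => av fun y => cod2 χ x y) = av χ := (av_cod2 χ).symm
  refine ⟨u, by linarith, ?_, ?_⟩
  · rw [hdav, hcodav] at hu2
    linarith
  · -- combine
    have hpt : ∀ x y, (a - cod2 χ x y - ∑ i, u x i * u y i) ^ 2 ≤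
        (1 + 1 / τ) * (φ x y) ^ 2 + (1 + τ) * (a - d (c x) (c y) - ∑ i, u x i * u y i) ^ 2 := by
      intro x y
      set p := φ x y with hp
      set q := a - d (c x) (c y) - ∑ i, u x i * u y i with hq
      have e : a - cod2 χ x y - ∑ i, u x i * u y i = q - p := by
        rw [hq, hp, hφdef]
        simp only
        ring
      rw [e]
      have h1 : 0 ≤ (p + τ * q) ^ 2 / τ := by positivity
      have h2 : (p + τ * q) ^ 2 / τ = p ^ 2 / τ + 2 * p * q + τ * q ^ 2 := by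
        field_simp
        ring
      have h3 : (1 + 1 / τ) * p ^ 2 = p ^ 2 + p ^ 2 / τ := by ring
      have h4 : (q - p) ^ 2 = q ^ 2 - 2 * p * q + p ^ 2 := by ring
      have h5 : (1 + τ) * q ^ 2 = q ^ 2 + τ * q ^ 2 := by ring
      rw [h2] at h1
      rw [h3, h4, h5]
      linarith
    have h1 : (av fun x => av fun y => (a - cod2 χ x y - ∑ i, u x i * u y i) ^ 2) ≤
        (1 + 1 / τ) * (av fun x => av fun y => (φ x y) ^ 2) +
        (1 + τ) * (av fun x => av fun y => (a - d (c x) (c y) - ∑ i, u x i * u y i) ^ 2) := by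
      simp only [← av_mul_left, ← av_add]
      exact av_mono fun x => av_mono fun y => hpt x y
    refine h1.trans ?_
    have hD0 : (1 : ℝ) ≤ D := by exact_mod_cast hD
    have h2 : a ^ 2 / (4 * D) ≤ 1 / 4 := by
      rw [div_le_iff₀ (by positivity)]
      nlinarith
    have h3 : (1 + 1 / τ) * (av fun x => av fun y => (φ x y) ^ 2) ≤ (1 + 1 / τ) * η₁ :=
      mul_le_mul_of_nonneg_left hE1 (by positivity)
    have h4 : (1 + 1 / τ) * η₁ ≤ η' / 4 := by
      have h5 : 1 / τ * η₁ = η' / 8 := by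
        rw [hτ, hη₁]
        field_simp
        ring
      have h6 : η₁ ≤ η' / 64 := by
        rw [hη₁]
        nlinarith
      have h7 : (1 + 1 / τ) * η₁ = η₁ + 1 / τ * η₁ := by ring
      rw [h7, h5]
      linarith
    have h5 : (1 + τ) * (av fun x => av fun y => (a - d (c x) (c y) - ∑ i, u x i * u y i) ^ 2) ≤
        (1 + τ) * (a ^ 2 / (4 * D) + η' / 4) := mul_le_mul_of_nonneg_left hu3 (by positivity)
    have h6 : (1 + τ) * (a ^ 2 / (4 * D) + η' / 4) ≤ a ^ 2 / (4 * D) + η' / 4 + τ := by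
      have : τ * (a ^ 2 / (4 * D) + η' / 4) ≤ τ * 1 := mul_le_mul_of_nonneg_left (by linarith) hτ0.le
      linarith
    have h7 : τ = η' / 8 := hτ
    linarith

theorem mainU (hTEL : S_TELK) (hVW : S_VWK) (hEXP : S_EXPK) (hPSD : S_PSDK) (hLA : S_LAK) (hKER : S_KERK)
    (hLIM : S_LIMK) (hUP : S_UPK) {k : ℕ} (hk : 2 ≤ k) {η : ℝ} (hη : 0 < η) :
    ∃ δ : ℝ, 0 < δ ∧ ∃ N₀ : ℕ, ∀ P : (∀ n : ℕ, Finset (Finset (Fin n)) → Prop), ClsK k P → ∀ a : ℝ,
      Tendsto (fun n : ℕ => (exP P n : ℝ) / (n.choose k : ℝ)) atTop (𝓝 a) →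
      ∀ N ≥ N₀, ∀ H : Finset (Finset (Fin N)), P N H →
        (exP P N : ℝ) ≤ H.card + δ * (N : ℝ) ^ k → GramC k a η H := by
  obtain ⟨m, rfl⟩ : ∃ m, k = m + 2 := ⟨k - 2, by omega⟩
  obtain ⟨δ, hδ, hg⟩ := gramU hTEL hVW hEXP hPSD hLA hKER hUP (m := m) hη
  have hkf : (0 : ℝ) < ((m + 2).factorial : ℝ) := by exact_mod_cast Nat.factorial_pos _
  refine ⟨δ / (2 * ((m + 2).factorial : ℝ)), by positivity, max (m + 2) (⌈2 * ((m + 2 : ℕ) : ℝ) ^ 2 / δ⌉₊), ?_⟩
  intro P hP a₀ hlim' N hN H hH hext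
  obtain ⟨a, ha0, ha1, hlim, hge⟩ := hLIM (m + 2) (by omega) P hP
  rw [← tendsto_nhds_unique hlim hlim']
  have hN1 : m + 2 ≤ N := le_trans (le_max_left _ _) hN
  have hN2 : 2 * ((m + 2 : ℕ) : ℝ) ^ 2 / δ ≤ N := by
    have h1 : ⌈2 * ((m + 2 : ℕ) : ℝ) ^ 2 / δ⌉₊ ≤ N := le_trans (le_max_right _ _) hN
    exact (Nat.le_ceil _).trans (by exact_mod_cast h1)
  have hN0 : (0 : ℝ) < N := by exact_mod_cast (by omega : 0 < N)
  haveI : Nonempty (Fin N) := ⟨⟨0, by omega⟩⟩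
  have huni := hP.uni N H hH
  -- density
  have hdens : a - δ ≤ av (TK (m + 2) H) := by
    rw [dens_eq hKER huni]
    have h1 := hge N hN1
    have hch : (0 : ℝ) < (N.choose (m + 2) : ℝ) := by exact_mod_cast Nat.choose_pos hN1
    rw [le_div_iff₀ hch] at h1
    have h2 : a * (N.descFactorial (m + 2) : ℝ) ≤ ((m + 2).factorial : ℝ) * exP P N := by
      rw [descFactorial_eq]
      have := mul_le_mul_of_nonneg_left h1 hkf.le
      linarith
    have h3 := ratio_ge (N := N) (k := m + 2) (by omega) hN1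
    rw [le_div_iff₀ (by positivity)] at h3
    have h4 : ((m + 2 : ℕ) : ℝ) ^ 2 / N ≤ δ / 2 := by
      rw [div_le_iff₀ hN0]
      rw [div_le_iff₀ hδ] at hN2
      linarith
    rw [le_div_iff₀ (by positivity)]
    have h5 : (1 - δ / 2) * (N : ℝ) ^ (m + 2) ≤ (N.descFactorial (m + 2) : ℝ) :=
      le_trans (mul_le_mul_of_nonneg_right (by linarith) (by positivity)) h3
    have h6 : a * ((1 - δ / 2) * (N : ℝ) ^ (m + 2)) ≤ ((m + 2).factorial : ℝ) * exP P N :=
      le_trans (mul_le_mul_of_nonneg_left h5 ha0) h2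
    have h7 : ((m + 2).factorial : ℝ) * exP P N ≤
        ((m + 2).factorial : ℝ) * H.card + δ / 2 * (N : ℝ) ^ (m + 2) := by
      have h8 := mul_le_mul_of_nonneg_left hext hkf.le
      have h9 : ((m + 2).factorial : ℝ) * (H.card + δ / (2 * ((m + 2).factorial : ℝ)) * (N : ℝ) ^ (m + 2))
          = ((m + 2).factorial : ℝ) * H.card + δ / 2 * (N : ℝ) ^ (m + 2) := by
        field_simp
      rw [h9] at h8
      exact h8
    have h10 : a * (δ / 2 * (N : ℝ) ^ (m + 2)) ≤ 1 * (δ / 2 * (N : ℝ) ^ (m + 2)) :=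
      mul_le_mul_of_nonneg_right ha1 (by positivity)
    nlinarith
  intro D hD
  obtain ⟨u, h1, h2, h3⟩ := hg P hP a ha0 ha1 hlim N (by omega) H hH hdens D hD
  refine ⟨u, ?_, ?_, ?_⟩
  · unfold av at h1
    rw [Fintype.card_fin, div_le_iff₀ hN0] at h1
    exact h1
  · unfold av at h2
    rw [Fintype.card_fin] at h2
    simp only [div_pow] at h2
    rw [← sum_div, div_le_iff₀ (by positivity)] at h2
    exact h2
  · rw [av_av, Fintype.card_fin, div_le_iff₀ (by positivity)] at h3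
    refine le_trans (sum_le_sum fun x _ => ?_) h3
    calc ∑ y ∈ univ.erase x, (((m + 2 - 2).factorial : ℝ) * pdeg H x y / (N : ℝ) ^ (m + 2 - 2)
          - (a - ∑ i, u x i * u y i)) ^ 2
        = ∑ y ∈ univ.erase x, (a - cod2 (TK (m + 2) H) x y - ∑ i, u x i * u y i) ^ 2 := by
          refine sum_congr rfl fun y hy => ?_
          rw [hKER.2.2.2 m N H huni x y (ne_of_mem_erase hy).symm]
          simp only [Nat.add_sub_cancel]
          ring
      _ ≤ _ := sum_le_sum_of_subset_of_nonneg (subset_univ _) fun y _ _ => sq_nonneg _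


end Pool.Agent.H70.AL.GramU
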