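import Pool.Agent.H70.GR.Stm

/-! Degrees of the j-sets of nearly extremal k-graphs, j = l + 1: statements. -/

set_option autoImplicit false
open Finset

namespace Pool.Agent.H70.AL

open Pool.Agent.H70.RC Pool.Agent.H70.QR Pool.Agent.H70.GR

/-- strictly increasing maps -/
noncomputable def SM (j k : ℕ) : Finset (Fin j → Fin k) := by
  classical exact univ.filter fun y => StrictMono y

/-- the subtuple without the coordinate `i` -/
def rm {V : Type} {l : ℕ} (i : Fin (l + 1)) (x : Fin (l + 1) → V) : Fin l → V := fun a => x (i.succAbove a)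

/-- `φ` is quasirandom: it has small average with every product of functions of the proper subtuples. -/
def CutF {V : Type} [Fintype V] {l : ℕ} (φ : (Fin (l + 1) → V) → ℝ) (δ : ℝ) : Prop :=
  ∀ g : Fin (l + 1) → (Fin l → V) → ℝ, (∀ i z, 0 ≤ g i z) → (∀ i z, g i z ≤ 1) →
    |av fun x => φ x * ∏ i, g i (rm i x)| ≤ δ

open Classical in
/-- the same, tested by sets only -/
def CutS {V : Type} [Fintype V] {l : ℕ} (φ : (Fin (l + 1) → V) → ℝ) (δ : ℝ) : Prop :=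
  ∀ A : Fin (l + 1) → Finset (Fin l → V),
    |av fun x => if ∀ i, rm i x ∈ A i then φ x else 0| ≤ δ

/-- the weight of a `k`-tuple -/
noncomputable def WJ {V : Type} {l k : ℕ} (φ : (Fin (l + 1) → V) → ℝ) (s : ℝ) (x : Fin k → V) : ℝ :=
  ∏ y ∈ SM (l + 1) k, (1 + s * φ (fun i => x (y i)))

/-- the weighted density -/
noncomputable def TWJ {V : Type} [Fintype V] {l k : ℕ} (χ : (Fin k → V) → ℝ) (φ : (Fin (l + 1) → V) → ℝ) (s : ℝ) : ℝ :=
  av fun x : Fin k → V => WJ φ s x * χ x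

/-- `M` bounds the number of edges of all blow-ups on `n` vertices. -/
def BdM {V : Type} {k : ℕ} (χ : (Fin k → V) → ℝ) (n : ℕ) (M : ℝ) : Prop :=
  ∀ f : Fin n → V, ∑ y ∈ SM k n, χ (fun i => f (y i)) ≤ M

/-- the normalised degree of an `(l + 1)`-tuple -/
noncomputable def dJ {V : Type} [Fintype V] {l m : ℕ} (χ : (Fin (l + 1 + m) → V) → ℝ) (x : Fin (l + 1) → V) : ℝ :=
  av fun z : Fin m → V => χ (Fin.append x z)

/-- CUT: sets suffice. -/
def S_CUT : Prop :=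
  ∀ (V : Type) [Fintype V] [Nonempty V] (l : ℕ) (φ : (Fin (l + 1) → V) → ℝ) (δ : ℝ), CutS φ δ → CutF φ δ

/-- TELJ: random blow-ups weighted by the `(l + 1)`-subsets. -/
def S_TELJ : Prop :=
  ∀ (V : Type) [Fintype V] [Nonempty V] (k l : ℕ) (χ : (Fin k → V) → ℝ), KerK χ → ∀ (n : ℕ) (M : ℝ), 0 ≤ M →
    BdM χ n M → ∀ φ : (Fin (l + 1) → V) → ℝ, (∀ x, |φ x| ≤ 1) → ∀ δ : ℝ, 0 ≤ δ → CutF φ δ →
    ∀ s : ℝ, 0 ≤ s → s ≤ 1 →
    (n.choose k : ℝ) * (TWJ χ φ s - n ^ (l + 1) * 2 ^ (n ^ (l + 1)) * δ) ≤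
      M * (1 + n ^ (l + 1) * 2 ^ (n ^ (l + 1)) * δ)

/-- EXPJ: from the weighted densities to the linear form. -/
def S_EXPJ : Prop :=
  ∀ (V : Type) [Fintype V] [Nonempty V] (l m : ℕ) (χ : (Fin (l + 1 + m) → V) → ℝ), KerK χ → ∀ (a η : ℝ), 0 < η → η ≤ 1 →
    a - η ≤ av χ → ∀ φ : (Fin (l + 1) → V) → ℝ, (∀ x, |φ x| ≤ 1) →
    (∀ s : ℝ, 0 ≤ s → s ≤ 1 → TWJ χ φ s ≤ a + η ∧ TWJ χ (fun x => - φ x) s ≤ a + η) →
    |av fun x => φ x * dJ χ x| ≤ (2 + 2 ^ ((l + 1 + m) ^ (l + 1))) * √η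

/-- WRJ: weak regularity. -/
def S_WRJ : Prop :=
  ∀ (l : ℕ) (δ : ℝ), 0 < δ → ∃ M : ℕ, ∀ (V : Type) [Fintype V] [Nonempty V] (D : (Fin (l + 1) → V) → ℝ),
    (∀ x, 0 ≤ D x) → (∀ x, D x ≤ 1) →
    ∃ (c : (Fin l → V) → Fin M) (d : (Fin (l + 1) → Fin M) → ℝ), (∀ p, 0 ≤ d p) ∧ (∀ p, d p ≤ 1) ∧
      CutS (fun x => D x - d (fun i => c (rm i x))) δ ∧
      ∀ F : (Fin (l + 1) → Fin M) → ℝ,
        av (fun x => (D x - d (fun i => c (rm i x))) * F (fun i => c (rm i x))) = 0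

/-- the number of edges which contain `S` -/
def degS {n : ℕ} (H : Finset (Finset (Fin n))) (S : Finset (Fin n)) : ℕ := (H.filter fun e => S ⊆ e).card

open Classical in
/-- a function of sets as a function of tuples -/
noncomputable def tup {N l : ℕ} (φ : Finset (Fin N) → ℝ) (x : Fin (l + 1) → Fin N) : ℝ :=
  if Function.Injective x then φ (univ.image x) else 0

/-- KERJ: kernels of k-graphs. -/
def S_KERJ : Prop :=
  (∀ (k : ℕ) (P : ∀ n : ℕ, Finset (Finset (Fin n)) → Prop), ClsK k P → ∀ (N : ℕ) (H : Finset (Finset (Fin N))), P N H →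
    ∀ n : ℕ, BdM (TK k H) n (exP P n)) ∧
  (∀ (l m N : ℕ) (H : Finset (Finset (Fin N))), (∀ e ∈ H, e.card = l + 1 + m) → ∀ x : Fin (l + 1) → Fin N,
    Function.Injective x →
    dJ (TK (l + 1 + m) H) x = (m.factorial : ℝ) * degS H (univ.image x) / (N : ℝ) ^ m) ∧
  (∀ (k l N : ℕ) (H : Finset (Finset (Fin N))), (∀ e ∈ H, e.card = k) → ∀ φ : Finset (Fin N) → ℝ,
    TWJ (l := l) (TK k H) (tup φ) 1 =
      (k.factorial : ℝ) * (∑ e ∈ H, ∏ S ∈ e.powersetCard (l + 1), (1 + φ S)) / (N : ℝ) ^ k)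

/-- UPK: the maximum number of edges of a closed class is at most its limit density times `n ^ k / k!`. -/
def S_UPK : Prop :=
  ∀ (k : ℕ), 1 ≤ k → ∀ P : (∀ n : ℕ, Finset (Finset (Fin n)) → Prop), ClsK k P → ∀ a : ℝ,
    Filter.Tendsto (fun n : ℕ => (exP P n : ℝ) / (n.choose k : ℝ)) Filter.atTop (nhds a) →
    ∀ n : ℕ, (k.factorial : ℝ) * exP P n ≤ a * (n : ℝ) ^ k

end Pool.Agent.H70.AL
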