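import Pool.Agent.H70.AL.Stm
import Pool.Agent.H70.GR.KERK
import Pool.Agent.H70.GR.LIMK

/-! UPK: blow-ups. -/

set_option autoImplicit false
open Finset

namespace Pool.Agent.H70.AL.UPK

open Pool.Agent.H70.RC Pool.Agent.H70.QR Pool.Agent.H70.GR

theorem blow_sum {k n t : ℕ} (g : (Fin k → Fin n) → ℝ) :
    ∑ x : Fin k → Fin (n * t), g (fun i => (finProdFinEquiv.symm (x i)).1) =
      (t : ℝ) ^ k * ∑ y, g y := by
  let e : (Fin k → Fin (n * t)) ≃ (Fin k → Fin n) × (Fin k → Fin t) :=
    (Equiv.piCongrRight fun _ => finProdFinEquiv.symm).trans (Equiv.arrowProdEquivProdArrow _ _ _)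
  have h1 : ∀ x : Fin k → Fin (n * t), g (fun i => (finProdFinEquiv.symm (x i)).1) = (fun p : (Fin k → Fin n) × (Fin k → Fin t) => g p.1) (e x) :=
    fun x => rfl
  rw [sum_congr rfl fun x _ => h1 x, Equiv.sum_comp e (fun p : (Fin k → Fin n) × (Fin k → Fin t) => g p.1), Fintype.sum_prod_type]
  simp only [sum_const, card_univ, Fintype.card_fun, Fintype.card_fin, nsmul_eq_mul]
  rw [← mul_sum]
  push_cast
  rfl

theorem blow_card {k n t : ℕ} {H : Finset (Finset (Fin n))} (hH : ∀ e ∈ H, e.card = k) :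
    ((pullK k H fun i : Fin (n * t) => (finProdFinEquiv.symm i).1).card : ℝ) = (t : ℝ) ^ k * H.card := by
  have h1 := KERK.sum_tk (KERK.pullK_card (k := k) (H := H) fun i : Fin (n * t) => (finProdFinEquiv.symm i).1)
  have h2 := blow_sum (t := t) (TK k H)
  rw [sum_congr rfl fun x _ => KERK.tk_pull hH (fun i : Fin (n * t) => (finProdFinEquiv.symm i).1) x, h1,
    KERK.sum_tk hH] at h2
  have h3 : (0 : ℝ) < k.factorial := by exact_mod_cast Nat.factorial_pos k
  have h4 : (k.factorial : ℝ) * ((pullK k H fun i : Fin (n * t) => (finProdFinEquiv.symm i).1).card : ℝ) =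
      (k.factorial : ℝ) * ((t : ℝ) ^ k * H.card) := by
    rw [h2]
    ring
  exact mul_left_cancel₀ h3.ne' h4

theorem upk : S_UPK := by
  intro k hk P hP a ha n
  have ha0 : 0 ≤ a := ge_of_tendsto' ha fun n => div_nonneg (Nat.cast_nonneg _) (Nat.cast_nonneg _)
  rcases LIMK.exP_cases hP n with h0 | ⟨H, hPH, hc⟩
  · rw [h0, Nat.cast_zero, mul_zero]
    positivity
  rcases Nat.eq_zero_or_pos n with hn | hn
  · subst hn
    have hH : H = ∅ := by
      rw [eq_empty_iff_forall_notMem]
      intro e he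
      have h1 := hP.uni 0 H hPH e he
      have h2 : e.card ≤ 0 := by
        have := card_le_univ e
        rwa [Fintype.card_fin] at this
      omega
    rw [← hc, hH, card_empty, Nat.cast_zero, mul_zero]
    positivity
  rw [← hc]
  have hn' : (0 : ℝ) < n := by exact_mod_cast hn
  have hlim : Filter.Tendsto (fun t : ℕ => (exP P (n * t) : ℝ) / ((n * t).choose k : ℝ)) Filter.atTop (nhds a) :=
    ha.comp (Filter.tendsto_atTop_mono (fun t => Nat.le_mul_of_pos_left t hn) Filter.tendsto_id)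
  have hkey : (k.factorial : ℝ) * H.card / (n : ℝ) ^ k ≤ a := by
    refine ge_of_tendsto hlim ?_
    filter_upwards [Filter.eventually_ge_atTop k] with t ht
    have ht0 : 0 < t := by omega
    have ht' : (0 : ℝ) < t := by exact_mod_cast ht0
    have h1 : k ≤ n * t := ht.trans (Nat.le_mul_of_pos_left t hn)
    have h2 : (0 : ℝ) < ((n * t).choose k : ℝ) := by exact_mod_cast Nat.choose_pos h1
    have h3 : ((n * t).choose k : ℝ) ≤ ((n * t : ℕ) : ℝ) ^ k / (k.factorial : ℝ) := Nat.choose_le_pow_div k (n * t)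
    have h4 : (t : ℝ) ^ k * H.card ≤ (exP P (n * t) : ℝ) := by
      rw [← blow_card (hP.uni n H hPH)]
      exact_mod_cast LIMK.le_exP hP (hP.pull n (n * t) _ H hPH)
    have h5 : (0 : ℝ) < k.factorial := by exact_mod_cast Nat.factorial_pos k
    rw [le_div_iff₀ h2]
    refine le_trans ?_ h4
    have h6 : (k.factorial : ℝ) * H.card / (n : ℝ) ^ k * ((n * t).choose k : ℝ) ≤
        (k.factorial : ℝ) * H.card / (n : ℝ) ^ k * (((n * t : ℕ) : ℝ) ^ k / (k.factorial : ℝ)) :=
      mul_le_mul_of_nonneg_left h3 (by positivity)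
    refine h6.trans (le_of_eq ?_)
    push_cast
    rw [mul_pow]
    field_simp
  rwa [div_le_iff₀ (by positivity)] at hkey

end Pool.Agent.H70.AL.UPK
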